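import Pool.Agent.Q193.ESG.LcfB

/-!
# Project ESG (helper161), job LCF: the local conditions over a number field
-/

set_option autoImplicit false
set_option linter.all false

namespace Pool.Agent.Q193.ESG

open Polynomial NumberField IsDedekindDomain Finset
open Pool.Agent.Q51.EL (Abv Par)
open Pool.Agent.Q161.ESM
open Pool.Agent.Q161.ESG
open scoped Classical

section int

variable {K : Type} [Field K] [NumberField K]

theorem int_mem {w : HeightOneSpectrum (𝓞 K)} {l : ℕ} (hl : l.Prime) (hw : Abv w l) {c : ℤ}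
    (h : (c : 𝓞 K) ∈ w.asIdeal) : (l : ℤ) ∣ c := by
  have hp : w.asIdeal.IsPrime := w.isPrime
  by_contra hc
  have h1 : IsCoprime (l : ℤ) c := (Nat.prime_iff_prime_int.1 hl).coprime_iff_not_dvd.2 hc
  obtain ⟨u, v, huv⟩ := h1
  apply hp.ne_top
  rw [Ideal.eq_top_iff_one]
  have h2 : (1 : 𝓞 K) = (u : 𝓞 K) * (l : 𝓞 K) + (v : 𝓞 K) * (c : 𝓞 K) := by
    have h3 := congrArg (fun n : ℤ => (n : 𝓞 K)) huv
    push_cast at h3
    exact h3.symm
  rw [h2]
  exact w.asIdeal.add_mem (w.asIdeal.mul_mem_left _ hw) (w.asIdeal.mul_mem_left _ h)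

theorem val_c {w : HeightOneSpectrum (𝓞 K)} {l : ℕ} (hl : l.Prime) (hw : Abv w l) {c : ℤ}
    (h : ¬ (l : ℤ) ∣ c) : w.valuation K (c : K) = 1 := by
  have h1 := Pool.Agent.Q124.ESM.val_one (w := w) (x := (c : 𝓞 K)) (fun h2 => h (int_mem hl hw h2))
  have e : ((c : 𝓞 K) : K) = (c : K) := by simp
  rwa [e] at h1

theorem val_D {w : HeightOneSpectrum (𝓞 K)} {l : ℕ} (hl : l.Prime) (hw : Abv w l)
    (hvl : w.valuation K (l : K) = WithZero.exp (-1 : ℤ)) {D : ℤ} (hD : Squarefree D)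
    (h : (l : ℤ) ∣ D) : w.valuation K (D : K) = WithZero.exp (-1 : ℤ) := by
  obtain ⟨m, rfl⟩ := h
  have h1 : ¬ (l : ℤ) ∣ m := by
    rintro ⟨m', rfl⟩
    have h2 := hD (l : ℤ) ⟨m', by ring⟩
    have h3 := (Nat.prime_iff_prime_int.1 hl).not_unit
    exact h3 h2
  have h2 : (((l : ℤ) * m : ℤ) : K) = (l : K) * (m : K) := by push_cast; rfl
  rw [h2, map_mul, hvl, val_c hl hw h1, mul_one]

theorem exists_N {F : Type} [Field F] [NumberField F] {Δ : 𝓞 F} (h : Δ ≠ 0) :
    ∃ N : ℕ, N ≠ 0 ∧ Δ ∣ (N : 𝓞 F) := by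
  refine ⟨Ideal.absNorm (Ideal.span {Δ}), ?_, Ideal.mem_span_singleton.1 (Ideal.absNorm_mem _)⟩
  intro h0
  rw [Ideal.absNorm_eq_zero_iff, Ideal.span_singleton_eq_bot] at h0
  exact h h0

theorem val_Δ {F : Type} [Field F] [NumberField F] {Δ : 𝓞 F} {N : ℕ} (h : Δ ∣ (N : 𝓞 F))
    {w : HeightOneSpectrum (𝓞 K)} {l : ℕ} (hl : l.Prime) (hw : Abv w l) (hN : ¬ l ∣ N) (τ : F →+* K) :
    w.valuation K (τ (Δ : F)) = 1 := by
  have h1 : RingOfIntegers.mapRingHom τ Δ ∉ w.asIdeal := by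
    intro h2
    obtain ⟨c, hc⟩ := h
    have h3 : ((N : ℤ) : 𝓞 K) ∈ w.asIdeal := by
      have h4 := congrArg (RingOfIntegers.mapRingHom τ) hc
      rw [map_natCast, map_mul] at h4
      rw [Int.cast_natCast, h4]
      exact w.asIdeal.mul_mem_right _ h2
    have h5 := int_mem hl hw h3
    exact hN (by exact_mod_cast h5)
  exact Pool.Agent.Q124.ESM.val_one h1

theorem val_int (w : HeightOneSpectrum (𝓞 K)) {L : Type} [Field L] [NumberField L] (ι : L →+* K)
    (t : 𝓞 L) : w.valuation K (ι (t : L)) ≤ 1 :=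
  w.valuation_le_one (K := K) (RingOfIntegers.mapRingHom ι t)

end int

section main

variable {F L K : Type} [Field F] [NumberField F] [Field L] [NumberField L] [Algebra F L]
  [Field K] [NumberField K] [IsGalois ℚ K]

/-- the local situation at one embedding -/
theorem loc {a b : 𝓞 F} {th : 𝓞 L} (hirr : Irreducible (X ^ 3 + C (a : F) * X + C (b : F) : F[X]))
    (hroot : (th : L) ^ 3 + algebraMap F L a * (th : L) + algebraMap F L b = 0)
    (hdeg : Module.finrank F L = 3) {N : ℕ} (hN : (4 * a ^ 3 + 27 * b ^ 2 : 𝓞 F) ∣ (N : 𝓞 F))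
    {w : HeightOneSpectrum (𝓞 K)} {l : ℕ} (hl : l.Prime) (hw : Abv w l) (hlN : ¬ l ∣ N)
    {D : ℤ} (hD : D ≠ 0) {x y : F}
    (hxy : y ^ 2 = x ^ 3 + ((a : F) * (D : F) ^ 2) * x + (b : F) * (D : F) ^ 3) (ι : L →+* K) :
    ∃ ι2 ι3 : L →+* K, (∀ ι' : L →+* K, ι'.comp (algebraMap F L) = ι.comp (algebraMap F L) ↔
      ι' = ι ∨ ι' = ι2 ∨ ι' = ι3) ∧ ι ≠ ι2 ∧ ι ≠ ι3 ∧ ι2 ≠ ι3 ∧
      w.valuation K (ι (th : L)) ≤ 1 ∧ w.valuation K (ι2 (th : L)) ≤ 1 ∧ w.valuation K (ι3 (th : L)) ≤ 1 ∧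
      w.valuation K (ι (th : L) - ι2 (th : L)) = 1 ∧ w.valuation K (ι (th : L) - ι3 (th : L)) = 1 ∧
      w.valuation K (ι2 (th : L) - ι3 (th : L)) = 1 ∧
      ι (algebraMap F L y) ≠ 0 ∧
      ι (algebraMap F L y) ^ 2 = (ι (algebraMap F L x) - D * ι (th : L)) *
        (ι (algebraMap F L x) - D * ι2 (th : L)) * (ι (algebraMap F L x) - D * ι3 (th : L)) ∧
      ι (algebraMap F L x - D * (th : L)) = ι (algebraMap F L x) - D * ι (th : L) ∧
      ι2 (algebraMap F L x - D * (th : L)) = ι (algebraMap F L x) - D * ι2 (th : L) ∧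
      ι3 (algebraMap F L x - D * (th : L)) = ι (algebraMap F L x) - D * ι3 (th : L) := by
  obtain ⟨ι2, ι3, hb, h12, h13, h23, t12, t13, t23⟩ := blk_three hirr hroot hdeg ι
  have c2 : ι2.comp (algebraMap F L) = ι.comp (algebraMap F L) := (hb ι2).2 (Or.inr (Or.inl rfl))
  have c3 : ι3.comp (algebraMap F L) = ι.comp (algebraMap F L) := (hb ι3).2 (Or.inr (Or.inr rfl))
  have e2 : ∀ z : F, ι2 (algebraMap F L z) = ι (algebraMap F L z) := fun z =>
    congrArg (fun g : F →+* K => g z) c2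
  have e3 : ∀ z : F, ι3 (algebraMap F L z) = ι (algebraMap F L z) := fun z =>
    congrArg (fun g : F →+* K => g z) c3
  have hr : ∀ ι' : L →+* K, (∀ z : F, ι' (algebraMap F L z) = ι (algebraMap F L z)) →
      (ι' (th : L)) ^ 3 + ι (algebraMap F L a) * ι' (th : L) + ι (algebraMap F L b) = 0 := by
    intro ι' h
    have h1 := congrArg ι' hroot
    rw [map_add, map_add, map_mul, map_pow, map_zero, h, h] at h1
    exact h1
  have r1 := hr ι (fun z => rfl)
  have r2 := hr ι2 e2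
  have r3 := hr ι3 e3
  have v1 := val_int w ι th
  have v2 := val_int w ι2 th
  have v3 := val_int w ι3 th
  have hΔ : w.valuation K (4 * (ι (algebraMap F L a)) ^ 3 + 27 * (ι (algebraMap F L b)) ^ 2) = 1 := by
    have h1 := val_Δ hN hl hw hlN (ι.comp (algebraMap F L))
    have h2 : (ι.comp (algebraMap F L)) ((4 * a ^ 3 + 27 * b ^ 2 : 𝓞 F) : F) =
        4 * (ι (algebraMap F L a)) ^ 3 + 27 * (ι (algebraMap F L b)) ^ 2 := by
      have h3 : ((4 * a ^ 3 + 27 * b ^ 2 : 𝓞 F) : F) = 4 * (a : F) ^ 3 + 27 * (b : F) ^ 2 := by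
        push_cast
        rfl
      rw [h3]
      simp only [RingHom.comp_apply, map_add, map_mul, map_pow, map_ofNat]
    rwa [h2] at h1
  obtain ⟨d12, d13, d23⟩ := dif_val r1 r2 r3 t12 t13 t23 hΔ v1 v2 v3
  have hy0 : y ≠ 0 := by
    intro h0
    have hD' : (D : F) ≠ 0 := by exact_mod_cast hD
    apply no_root hirr (x / D)
    have h1 : x ^ 3 + ((a : F) * (D : F) ^ 2) * x + (b : F) * (D : F) ^ 3 = 0 := by
      rw [← hxy, h0]
      ring
    have h2 : (x / D) ^ 3 + (a : F) * (x / D) + (b : F) =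
        (x ^ 3 + ((a : F) * (D : F) ^ 2) * x + (b : F) * (D : F) ^ 3) / (D : F) ^ 3 := by
      field_simp
    rw [h2, h1, zero_div]
  have hdl : ∀ ι' : L →+* K, (∀ z : F, ι' (algebraMap F L z) = ι (algebraMap F L z)) →
      ι' (algebraMap F L x - D * (th : L)) = ι (algebraMap F L x) - D * ι' (th : L) := by
    intro ι' h
    rw [map_sub, map_mul, map_intCast, h]
  refine ⟨ι2, ι3, hb, h12, h13, h23, v1, v2, v3, d12, d13, d23, ?_, ?_, hdl ι fun z => rfl, hdl ι2 e2, hdl ι3 e3⟩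
  · intro h
    apply hy0
    have h1 := ι.injective (h.trans (map_zero ι).symm)
    exact (algebraMap F L).injective (h1.trans (map_zero _).symm)
  · have h1 := congrArg (fun z => ι (algebraMap F L z)) hxy
    simp only [map_add, map_mul, map_pow, map_intCast] at h1
    rw [h1]
    exact fac r1 r2 r3 t12 t13 t23 _ _

/-- the type -/
noncomputable def Ee (w : HeightOneSpectrum (𝓞 K)) (δ : L) (ι : L →+* K) : ZMod 2 :=
  if w.valuation K (ι δ) = WithZero.exp (-1 : ℤ) then 1 else 0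

/-- the square roots -/
noncomputable def rr (F : Type) [Field F] [Algebra F L] (w : HeightOneSpectrum (𝓞 K)) (th : 𝓞 L) (D : ℤ) (x y : F)
    (e : (L →+* K) → ZMod 2) (ι : L →+* K) : K :=
  if WithZero.exp (-1 : ℤ) < w.valuation K (ι (algebraMap F L x)) then
    ι (algebraMap F L y) / ι (algebraMap F L x)
  else if e ι = 0 then ι (algebraMap F L y) / (D : K)
  else (D : K) * ∏ ι' ∈ univ.filter (fun ι' : L →+* K =>
    ι'.comp (algebraMap F L) = ι.comp (algebraMap F L) ∧ e ι' = 0), (ι' (th : L) - ι (th : L))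

theorem cp_comp {B : Type} [Field B] (inc : B →+* L) (g : K ≃ₐ[ℚ] K) (ι ι' : L →+* K) :
    (cp g ι').comp inc = (cp g ι).comp inc ↔ ι'.comp inc = ι.comp inc := by
  constructor
  · intro h
    ext z
    apply g.injective
    exact congrArg (fun f : B →+* K => f z) h
  · intro h
    ext z
    exact congrArg (fun f : B →+* K => g (f z)) h

theorem cp_inj (g : K ≃ₐ[ℚ] K) {ι ι' : L →+* K} (h : cp g ι = cp g ι') : ι = ι' := by
  ext z
  apply g.injective
  exact congrArg (fun f : L →+* K => f z) h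

theorem cp_symm (g : K ≃ₐ[ℚ] K) (ι : L →+* K) : cp g (cp g.symm ι) = ι := by
  ext z
  show g (g.symm (ι z)) = ι z
  exact g.apply_symm_apply _

theorem rr_eqv {w : HeightOneSpectrum (𝓞 K)} {l : ℕ} (hl : l ≠ 0) {g : K ≃ₐ[ℚ] K} (hg : Fb w l g)
    (th : 𝓞 L) (D : ℤ) (x y : F) (e : (L →+* K) → ZMod 2) (he : ∀ ι, e (cp g ι) = e ι) (ι : L →+* K) :
    g (rr F w th D x y e ι) = rr F w th D x y e (cp g ι) := by
  have hc : ∀ z : L, cp g ι z = g (ι z) := fun z => rfl
  have hcond : (WithZero.exp (-1 : ℤ) < w.valuation K (cp g ι (algebraMap F L x))) ↔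
      (WithZero.exp (-1 : ℤ) < w.valuation K (ι (algebraMap F L x))) := by
    rw [hc, mvp hl hg]
  unfold rr
  by_cases h1 : WithZero.exp (-1 : ℤ) < w.valuation K (ι (algebraMap F L x))
  · rw [if_pos h1, if_pos (hcond.2 h1), map_div₀, hc, hc]
  · rw [if_neg h1, if_neg (fun h => h1 (hcond.1 h)), he ι]
    by_cases h2 : e ι = 0
    · rw [if_pos h2, if_pos h2, map_div₀, map_intCast, hc]
    · rw [if_neg h2, if_neg h2, map_mul, map_intCast, map_prod]
      congr 1
      refine prod_bij (fun ι' _ => cp g ι') ?_ ?_ ?_ ?_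
      · intro ι' h
        obtain ⟨-, g1, g2⟩ := mem_filter.1 h
        refine mem_filter.2 ⟨mem_univ _, (cp_comp _ g ι ι').2 g1, ?_⟩
        rw [he]
        exact g2
      · intro ι1 _ ι2 _ h
        exact cp_inj g h
      · intro ι' h
        obtain ⟨-, g1, g2⟩ := mem_filter.1 h
        refine ⟨cp g.symm ι', ?_, cp_symm g ι'⟩
        refine mem_filter.2 ⟨mem_univ _, (cp_comp _ g ι _).1 (by rw [cp_symm]; exact g1), ?_⟩
        rw [← he, cp_symm]
        exact g2
      · intro ι' _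
        rw [map_sub]
        rfl

theorem uu_zero {B : Type} [Field B] {inc : B →+* L} {th : 𝓞 L} {e : (L →+* K) → ZMod 2} {ι : L →+* K}
    (S : Finset (L →+* K)) (hS : ∀ ι', ι' ∈ S ↔ (ι'.comp inc = ι.comp inc ∧ e ι' = 1)) (h : e ι = 0) :
    uu inc th e ι = ∏ ι' ∈ S, (ι (th : L) - ι' (th : L)) := by
  unfold uu
  rw [if_pos h]
  apply prod_congr _ fun _ _ => rfl
  ext ι'
  rw [mem_filter, hS]
  simp

theorem uu_one {B : Type} [Field B] {inc : B →+* L} {th : 𝓞 L} {e : (L →+* K) → ZMod 2} {ι : L →+* K}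
    (S : Finset (L →+* K)) (hS : ∀ ι', ι' ∈ S ↔ (ι'.comp inc = ι.comp inc ∧ e ι' = 0)) (h : ¬ e ι = 0) :
    uu inc th e ι = - ∏ ι' ∈ S, (ι (th : L) - ι' (th : L)) := by
  unfold uu
  rw [if_neg h]
  congr 1
  apply prod_congr _ fun _ _ => rfl
  ext ι'
  rw [mem_filter, hS]
  simp

theorem rr_one {w : HeightOneSpectrum (𝓞 K)} {th : 𝓞 L} {D : ℤ} {x y : F} {e : (L →+* K) → ZMod 2}
    {ι : L →+* K} (S : Finset (L →+* K))
    (hS : ∀ ι', ι' ∈ S ↔ (ι'.comp (algebraMap F L) = ι.comp (algebraMap F L) ∧ e ι' = 0))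
    (h1 : ¬ WithZero.exp (-1 : ℤ) < w.valuation K (ι (algebraMap F L x))) (h : ¬ e ι = 0) :
    rr F w th D x y e ι = (D : K) * ∏ ι' ∈ S, (ι' (th : L) - ι (th : L)) := by
  unfold rr
  rw [if_neg h1, if_neg h]
  congr 1
  apply prod_congr _ fun _ _ => rfl
  ext ι'
  rw [mem_filter, hS]
  simp

theorem blk_sum {B : Type} [Field B] {inc : B →+* L} {ι ι2 ι3 : L →+* K} (hb : ∀ ι' : L →+* K,
    ι'.comp inc = ι.comp inc ↔ ι' = ι ∨ ι' = ι2 ∨ ι' = ι3) (h12 : ι ≠ ι2) (h13 : ι ≠ ι3) (h23 : ι2 ≠ ι3)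
    (e : (L →+* K) → ZMod 2) : ∑ ι' ∈ univ.filter (fun ι' : L →+* K => ι'.comp inc = ι.comp inc), e ι' =
      e ι + e ι2 + e ι3 := by
  have h : univ.filter (fun ι' : L →+* K => ι'.comp inc = ι.comp inc) = {ι, ι2, ι3} := by
    ext ι'
    rw [mem_filter, hb]
    simp
  rw [h, sum_insert, sum_insert, sum_singleton, add_assoc]
  · rw [mem_singleton]
    exact h23
  · rw [mem_insert, mem_singleton]
    rintro (h0 | h0)
    · exact h12 h0
    · exact h13 h0

/-- the ramified case at one embedding -/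
theorem loc_odd {a b : 𝓞 F} {th : 𝓞 L} (hirr : Irreducible (X ^ 3 + C (a : F) * X + C (b : F) : F[X]))
    (hroot : (th : L) ^ 3 + algebraMap F L a * (th : L) + algebraMap F L b = 0)
    (hdeg : Module.finrank F L = 3) {N : ℕ} (hN : (4 * a ^ 3 + 27 * b ^ 2 : 𝓞 F) ∣ (N : 𝓞 F))
    {w : HeightOneSpectrum (𝓞 K)} {l : ℕ} (hl : l.Prime) (hw : Abv w l) (hlN : ¬ l ∣ N)
    {D : ℤ} (hD : D ≠ 0) {x y : F}
    (hxy : y ^ 2 = x ^ 3 + ((a : F) * (D : F) ^ 2) * x + (b : F) * (D : F) ^ 3)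
    (hvD : w.valuation K (D : K) = WithZero.exp (-1 : ℤ)) {δ : L}
    (hδ : δ = algebraMap F L x - D * (th : L)) (ι : L →+* K) :
    (∑ ι' ∈ univ.filter (fun ι' : L →+* K => ι'.comp (algebraMap F L) = ι.comp (algebraMap F L)),
      Ee w δ ι' = 0) ∧
    (Ee w δ ι = 0 → Par w (ι δ) 0) ∧ (Ee w δ ι = 1 → Par w (ι δ) 1) ∧
    U1 (w.valuation K) (ι δ * (if Ee w δ ι = 1 then (D : K) else 1) *
      uu (algebraMap F L) th (Ee w δ) ι / (rr F w th D x y (Ee w δ) ι) ^ 2) := by
  obtain ⟨ι2, ι3, hb, h12, h13, h23, v1, v2, v3, d12, d13, d23, hy, hE, q1, q2, q3⟩ :=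
    loc hirr hroot hdeg hN hl hw hlN hD hxy ι
  rw [← hδ] at q1 q2 q3
  have pos : ∀ ι' : L →+* K, w.valuation K (ι' δ) = WithZero.exp (-1 : ℤ) → Ee w δ ι' = 1 := by
    intro ι' h
    unfold Ee
    rw [if_pos h]
  have neg : ∀ ι' : L →+* K, w.valuation K (ι' δ) ≠ WithZero.exp (-1 : ℤ) → Ee w δ ι' = 0 := by
    intro ι' h
    unfold Ee
    rw [if_neg h]
  have h10 : ¬ (1 : ZMod 2) = 0 := by decide
  have h01 : ¬ (0 : ZMod 2) = 1 := by decide
  have hp1 : w.valuation K (ι δ) = WithZero.exp (-1 : ℤ) → Par w (ι δ) 1 := by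
    intro h
    exact ⟨-1, by rw [h]; norm_num⟩
  rw [blk_sum hb h12 h13 h23]
  rcases tri hvD v1 v2 v3 d12 d13 d23 hy hE with ⟨hx, g1, g2, g3, k, hk⟩ | ⟨hx, hc⟩
  · have E1 := neg ι (by rw [q1, g1]; exact hx.ne')
    have E2 := neg ι2 (by rw [q2, g2]; exact hx.ne')
    have E3 := neg ι3 (by rw [q3, g3]; exact hx.ne')
    refine ⟨by rw [E1, E2, E3]; rfl, fun _ => ⟨k, by rw [q1, g1, hk]⟩, fun h => absurd (E1.symm.trans h) h01, ?_⟩
    have hu : uu (algebraMap F L) th (Ee w δ) ι = 1 := by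
      rw [uu_zero ∅ (fun ι' => ?_) E1, prod_empty]
      constructor
      · intro h
        exact absurd h (notMem_empty _)
      · rintro ⟨h1, h2⟩
        rcases (hb ι').1 h1 with rfl | rfl | rfl
        · exact absurd (E1.symm.trans h2) h01
        · exact absurd (E2.symm.trans h2) h01
        · exact absurd (E3.symm.trans h2) h01
    have hr : rr F w th D x y (Ee w δ) ι = ι (algebraMap F L y) / ι (algebraMap F L x) := by
      unfold rr
      rw [if_pos hx]
    rw [hu, hr, E1, if_neg h01, mul_one, mul_one, q1]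
    exact sq1 hvD v2 v3 hy hE hx
  · have hx' : ¬ WithZero.exp (-1 : ℤ) < w.valuation K (ι (algebraMap F L x)) := not_lt.2 hx
    rcases hc with ⟨g1, g2, g3, k, hk⟩ | ⟨g1, g2, g3, k, hk⟩ | ⟨g1, g2, g3, k, hk⟩
    · have E1 := neg ι (by rw [q1]; exact g1.ne)
      have E2 := pos ι2 (by rw [q2]; exact g2)
      have E3 := pos ι3 (by rw [q3]; exact g3)
      refine ⟨by rw [E1, E2, E3]; decide, fun _ => ⟨k, by rw [q1, hk]⟩, fun h => absurd (E1.symm.trans h) h01, ?_⟩
      have hu : uu (algebraMap F L) th (Ee w δ) ι =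
          (ι (th : L) - ι2 (th : L)) * (ι (th : L) - ι3 (th : L)) := by
        rw [uu_zero {ι2, ι3} (fun ι' => ?_) E1, prod_pair h23]
        rw [mem_insert, mem_singleton]
        constructor
        · rintro (rfl | rfl)
          · exact ⟨(hb _).2 (Or.inr (Or.inl rfl)), E2⟩
          · exact ⟨(hb _).2 (Or.inr (Or.inr rfl)), E3⟩
        · rintro ⟨h1, h2⟩
          rcases (hb ι').1 h1 with rfl | rfl | rfl
          · exact absurd (E1.symm.trans h2) h01
          · exact Or.inl rfl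
          · exact Or.inr rfl
      have hr : rr F w th D x y (Ee w δ) ι = ι (algebraMap F L y) / (D : K) := by
        unfold rr
        rw [if_neg hx', if_pos E1]
      rw [hu, hr, E1, if_neg h01, mul_one, q1]
      exact sq2 hvD hy hE g1 g2 g3
    · have E1 := pos ι (by rw [q1]; exact g1)
      have E2 := neg ι2 (by rw [q2]; exact g2.ne)
      have E3 := pos ι3 (by rw [q3]; exact g3)
      have E1' : ¬ Ee w δ ι = 0 := fun h => h10 (E1.symm.trans h)
      refine ⟨by rw [E1, E2, E3]; decide, fun h => absurd h E1', fun _ => hp1 (by rw [q1]; exact g1), ?_⟩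
      have hS : ∀ ι', ι' ∈ ({ι2} : Finset (L →+* K)) ↔
          (ι'.comp (algebraMap F L) = ι.comp (algebraMap F L) ∧ Ee w δ ι' = 0) := by
        intro ι'
        rw [mem_singleton]
        constructor
        · rintro rfl
          exact ⟨(hb _).2 (Or.inr (Or.inl rfl)), E2⟩
        · rintro ⟨h1, h2⟩
          rcases (hb ι').1 h1 with rfl | rfl | rfl
          · exact absurd h2 E1'
          · rfl
          · exact absurd (E3.symm.trans h2) h10
      rw [uu_one {ι2} hS E1', rr_one {ι2} hS hx' E1', prod_singleton, prod_singleton, E1, if_pos rfl, q1]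
      exact sq3 hvD d12 g2
    · have E1 := pos ι (by rw [q1]; exact g1)
      have E2 := pos ι2 (by rw [q2]; exact g2)
      have E3 := neg ι3 (by rw [q3]; exact g3.ne)
      have E1' : ¬ Ee w δ ι = 0 := fun h => h10 (E1.symm.trans h)
      refine ⟨by rw [E1, E2, E3]; decide, fun h => absurd h E1', fun _ => hp1 (by rw [q1]; exact g1), ?_⟩
      have hS : ∀ ι', ι' ∈ ({ι3} : Finset (L →+* K)) ↔
          (ι'.comp (algebraMap F L) = ι.comp (algebraMap F L) ∧ Ee w δ ι' = 0) := by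
        intro ι'
        rw [mem_singleton]
        constructor
        · rintro rfl
          exact ⟨(hb _).2 (Or.inr (Or.inr rfl)), E3⟩
        · rintro ⟨h1, h2⟩
          rcases (hb ι').1 h1 with rfl | rfl | rfl
          · exact absurd h2 E1'
          · exact absurd (E2.symm.trans h2) h10
          · rfl
      rw [uu_one {ι3} hS E1', rr_one {ι3} hS hx' E1', prod_singleton, prod_singleton, E1, if_pos rfl, q1]
      exact sq3 hvD d13 g3

end main

/-- **JOB LCF** -/
theorem lcf : S_LCF := by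
  intro F L _ _ _ _ _ a b th hirr hroot hdeg K _ _ _ hj
  obtain ⟨B0, hB0, hB⟩ := Pool.Agent.Q224.ESM.frx K
  have hΔ : (4 * a ^ 3 + 27 * b ^ 2 : 𝓞 F) ≠ 0 := by
    intro h
    apply disc_ne hirr
    have h1 := congrArg (fun z : 𝓞 F => (z : F)) h
    push_cast at h1
    exact h1
  obtain ⟨N, hN0, hN⟩ := exists_N hΔ
  refine ⟨2 * B0 * N, mul_ne_zero (mul_ne_zero two_ne_zero hB0) hN0, ?_⟩
  intro D hD P
  have hD0 : D ≠ 0 := hD.ne_zero
  rcases P with _ | ⟨x, y, hP⟩
  · show Gd1 K (algebraMap F L) th (2 * B0 * N) D (1 : L)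
    constructor
    · intro l hl hlB hlD w hw ι
      exact ⟨0, by rw [map_one, map_one]; rfl⟩
    · intro l hl hlB hlD w hw g hg
      have h01' : ¬ (0 : ZMod 2) = 1 := by decide
      refine ⟨fun _ => 0, fun τ => sum_const_zero, fun _ => rfl,
        fun ι => ⟨fun _ => ⟨0, by rw [map_one, map_one]; rfl⟩, fun h => absurd h h01'⟩, ?_⟩
      intro A hA
      have h1 : ∏ ι ∈ A, ι (1 : L) * (if (0 : ZMod 2) = 1 then (D : K) else 1) *
          uu (algebraMap F L) th (fun _ => 0) ι = 1 := by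
        apply prod_eq_one
        intro ι _
        have h01 : ¬ (0 : ZMod 2) = 1 := by decide
        have hu : uu (algebraMap F L) th (fun _ : L →+* K => (0 : ZMod 2)) ι = 1 := by
          rw [uu_zero ∅ (fun ι' => ?_) rfl, prod_empty]
          constructor
          · intro h
            exact absurd h (notMem_empty _)
          · rintro ⟨h1, h2⟩
            exact absurd h2 h01
        rw [hu, map_one, if_neg h01, one_mul, one_mul]
      rw [h1]
      refine ⟨0, ?_⟩
      rw [mul_zero, zpow_zero, mul_one, one_pow, sub_self, map_zero]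
      exact zero_lt_one
  · have hxy : y ^ 2 = x ^ 3 + ((a : F) * (D : F) ^ 2) * x + (b : F) * (D : F) ^ 3 := by
      have h1 := ((shF ((a : F) * (D : F) ^ 2) ((b : F) * (D : F) ^ 3)).toAffine.equation_iff x y).1 hP.1
      simp only [shF] at h1
      linear_combination h1
    set δ : L := algebraMap F L x - (D : L) * (th : L) with hδ
    show Gd1 K (algebraMap F L) th (2 * B0 * N) D δ
    constructor
    · intro l hl hlB hlD w hw ι
      have hlN : ¬ l ∣ N := fun h => hlB (h.mul_left _)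
      obtain ⟨ι2, ι3, hb, h12, h13, h23, v1, v2, v3, d12, d13, d23, hy, hE, q1, q2, q3⟩ :=
        loc hirr hroot hdeg hN hl hw hlN hD0 hxy ι
      obtain ⟨k, hk⟩ := evn (val_c hl hw hlD) v1 v2 v3 d12 d13 d23 hy hE
      exact ⟨k, by rw [hδ, q1, hk]⟩
    · intro l hl hlB hlD w hw g hg
      have hlN : ¬ l ∣ N := fun h => hlB (h.mul_left _)
      have hl2 : l ≠ 2 := by
        rintro rfl
        exact hlB ⟨B0 * N, by ring⟩
      have hlB0 : ¬ l ∣ B0 := fun h => hlB ((h.mul_left _).mul_right _)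
      have hvl := Pool.Agent.Q237.ESM.val_l hl (hB l hl hlB0).1 hw
      have hvD := val_D hl hw hvl hD hlD
      have H := fun ι => loc_odd hirr hroot hdeg hN hl hw hlN hD0 hxy hvD hδ ι
      have hEe : ∀ ι, Ee w δ (cp g ι) = Ee w δ ι := by
        intro ι
        unfold Ee
        have h1 : w.valuation K (cp g ι δ) = w.valuation K (ι δ) := mvp hl.ne_zero hg (ι δ)
        rw [h1]
      refine ⟨Ee w δ, ?_, hEe, fun ι => ⟨(H ι).2.1, (H ι).2.2.1⟩, ?_⟩
      · intro τ
        rcases (univ.filter (fun ι : L →+* K => ι.comp (algebraMap F L) = τ)).eq_empty_or_nonempty with h | ⟨ι, hι⟩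
        · rw [h, sum_empty]
        · have h1 := (mem_filter.1 hι).2
          rw [← h1]
          exact (H ι).1
      · intro A hA
        have hU : ∀ ι ∈ A, U1 (w.valuation K) (ι δ * (if Ee w δ ι = 1 then (D : K) else 1) *
            uu (algebraMap F L) th (Ee w δ) ι / (rr F w th D x y (Ee w δ) ι) ^ 2) := fun ι _ => (H ι).2.2.2
        have h2 := U1.prod hU
        rw [prod_div_distrib, prod_pow] at h2
        refine qr_of hl hl2 hvl hg (r := ∏ ι ∈ A, rr F w th D x y (Ee w δ) ι) ?_ ?_ h2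
        · intro h0
          rw [h0, zero_pow two_ne_zero, div_zero] at h2
          exact h2.ne rfl
        · rw [map_prod]
          refine prod_bij (fun ι _ => cp g ι) ?_ ?_ ?_ ?_
          · intro ι h
            exact (hA ι).1 h
          · intro ι1 _ ι2 _ h
            exact cp_inj g h
          · intro ι h
            exact ⟨cp g.symm ι, (hA _).2 (by rw [cp_symm]; exact h), cp_symm g ι⟩
          · intro ι _
            exact rr_eqv hl.ne_zero hg th D x y _ hEe ι

end Pool.Agent.Q193.ESG
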