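import Pool.Agent.Q161.ESG.Stm6
import Pool.Agent.Q286.EQ.MW
import Pool.Agent.Q283.FS.Rb

/-!
# Project ESG (helper161), job XTF: representatives of the points modulo two
-/

set_option autoImplicit false
set_option linter.all false

namespace Pool.Agent.Q193.ESG

open Polynomial NumberField

open scoped Classical

open Pool.Agent.Q161.ESG

theorem no_root {F : Type} [Field F] {A B : F}
    (h : Irreducible (X ^ 3 + C A * X + C B : F[X])) (x : F) : x ^ 3 + A * x + B ≠ 0 := by
  intro hx
  have h1 : (X ^ 3 + C A * X + C B : F[X]).IsRoot x := by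
    rw [IsRoot.def, eval_add, eval_add, eval_mul, eval_pow, eval_X, eval_C, eval_C]
    exact hx
  have h2 := degree_eq_one_of_irreducible_of_root h h1
  have h3 : (X ^ 3 + C A * X + C B : F[X]).degree = 3 := by compute_degree!
  rw [h3] at h2
  exact absurd h2 (by decide)

theorem disc_ne {F : Type} [Field F] [CharZero F] {A B : F}
    (h : Irreducible (X ^ 3 + C A * X + C B : F[X])) : 4 * A ^ 3 + 27 * B ^ 2 ≠ 0 := by
  intro h0
  by_cases hA : A = 0
  · have hB : B = 0 := by
      rw [hA] at h0
      have h1 : (27 : F) * B ^ 2 = 0 := by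
        rw [← h0]
        ring
      have h2 : (27 : F) ≠ 0 := by norm_num
      exact pow_eq_zero_iff two_ne_zero |>.1 ((mul_eq_zero.1 h1).resolve_left h2)
    apply no_root h 0
    rw [hA, hB]
    ring
  · apply no_root h (3 * B / A)
    have h1 : (3 * B / A) ^ 3 + A * (3 * B / A) + B = B * (4 * A ^ 3 + 27 * B ^ 2) / A ^ 3 := by
      field_simp
      ring
    rw [h1, h0, mul_zero, zero_div]

theorem delta_ne {F : Type} [Field F] [CharZero F] {A B : F}
    (h : Irreducible (X ^ 3 + C A * X + C B : F[X])) : (shF A B).Δ ≠ 0 := by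
  have h1 : (shF A B).Δ = -16 * (4 * A ^ 3 + 27 * B ^ 2) := by
    simp only [shF, WeierstrassCurve.Δ, WeierstrassCurve.b₂, WeierstrassCurve.b₄, WeierstrassCurve.b₆,
      WeierstrassCurve.b₈]
    ring
  rw [h1]
  exact mul_ne_zero (by norm_num) (disc_ne h)

/-- **JOB XTF** -/
theorem xtf (hI : S_XTI) : S_XTF := by
  intro F L _ _ _ _ A B ϑ hirr hroot hdeg
  have hFG : AddGroup.FG (shF A B).toAffine.Point :=
    Pool.Agent.Q286.EQ.mordell_weil F (shF A B) (delta_ne hirr)
  set G := (shF A B).toAffine.Point with hG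
  haveI : Module.Finite ℤ G := Module.Finite.iff_addGroup_fg.mpr hFG
  let N : AddSubgroup G := (nsmulAddMonoidHom (α := G) 2).range
  haveI : Finite (G ⧸ N) := by
    haveI : Module.Finite ℤ (G ⧸ N) :=
      Module.Finite.of_surjective (QuotientAddGroup.mk' N).toIntLinearMap (QuotientAddGroup.mk'_surjective N)
    apply Module.finite_of_fg_torsion (G ⧸ N)
    intro x
    obtain ⟨g, rfl⟩ := QuotientAddGroup.mk_surjective x
    refine ⟨⟨2, mem_nonZeroDivisors_of_ne_zero two_ne_zero⟩, ?_⟩
    show (2 : ℤ) • ((g : G) : G ⧸ N) = 0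
    rw [two_zsmul, ← QuotientAddGroup.mk_add, QuotientAddGroup.eq_zero_iff]
    exact ⟨g, by rw [nsmulAddMonoidHom_apply, two_nsmul]⟩
  haveI : Fintype (G ⧸ N) := Fintype.ofFinite _
  have hf : ∀ P Q : G, (P : G ⧸ N) = (Q : G ⧸ N) → ∃ R, P = Q + (R + R) := by
    intro P Q h
    rw [QuotientAddGroup.eq] at h
    obtain ⟨R, hR⟩ := h
    refine ⟨-R, ?_⟩
    rw [nsmulAddMonoidHom_apply, two_nsmul] at hR
    have h1 : -(R + R) = P + -Q := by
      rw [hR]
      abel
    have h2 : -R + -R = P + -Q := by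
      rw [← h1]
      abel
    rw [h2]
    abel
  have hcard := Q283.FS.four_rank hFG (fun P : G => (P : G ⧸ N)) hf
  refine ⟨Finset.univ.image (Quotient.out : G ⧸ N → G), ?_, ?_⟩
  · rw [Finset.card_image_of_injective _ Quotient.out_injective, Finset.card_univ, ← Nat.card_eq_fintype_card]
    refine le_trans ?_ hcard
    haveI : Finite {T : G // T + T = 0} := by
      by_contra hn
      rw [not_finite_iff_infinite] at hn
      haveI : Finite (Submodule.torsion ℤ G) :=
        Module.finite_of_fg_torsion _ Submodule.torsion_isTorsion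
      have hinj : Function.Injective (fun T : {T : G // T + T = 0} =>
          (⟨T.1, by
            rw [Submodule.mem_torsion_iff]
            refine ⟨⟨2, mem_nonZeroDivisors_of_ne_zero two_ne_zero⟩, ?_⟩
            show (2 : ℤ) • T.1 = 0
            rw [two_zsmul]
            exact T.2⟩ : Submodule.torsion ℤ G)) := by
        intro T T' h
        exact Subtype.ext (congrArg (fun z : Submodule.torsion ℤ G => (z : G)) h)
      exact hn.not_finite (Finite.of_injective _ hinj)
    have h1 : 1 ≤ Nat.card {T : G // T + T = 0} := Nat.card_pos_iff.2 ⟨⟨⟨0, add_zero 0⟩⟩, inferInstance⟩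
    calc 2 ^ Module.finrank ℤ G = 1 * 2 ^ Module.finrank ℤ G := (one_mul _).symm
      _ ≤ _ := Nat.mul_le_mul_right _ h1
  · intro P hP Q hQ hPQ hsq
    obtain ⟨x, -, rfl⟩ := Finset.mem_image.1 hP
    obtain ⟨y, -, rfl⟩ := Finset.mem_image.1 hQ
    obtain ⟨R, hR⟩ := hI F L A B ϑ hirr hroot hdeg _ _ hsq
    apply hPQ
    have h1 : x = y := by
      rw [← Quotient.out_eq x, ← Quotient.out_eq y]
      apply (QuotientAddGroup.eq (s := N)).2
      refine ⟨-R, ?_⟩
      rw [nsmulAddMonoidHom_apply, two_nsmul]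
      rw [hR]
      abel
    rw [h1]

end Pool.Agent.Q193.ESG
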