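import Mathlib

/-!
# Project ESG (helper161), job LCF, part 1: valuations
-/

set_option autoImplicit false
set_option linter.all false

namespace Pool.Agent.Q193.ESG

section val

variable {K : Type} [Field K] {v : Valuation K (WithZero (Multiplicative ℤ))}

/-- `z` is a one-unit -/
def U1 (v : Valuation K (WithZero (Multiplicative ℤ))) (z : K) : Prop := v (z - 1) < 1

theorem U1.val {z : K} (h : U1 v z) : v z = 1 := by
  have h1 : v (z - 1) < v (1 : K) := by rw [map_one]; exact h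
  have h2 := Valuation.map_add_eq_of_lt_left v h1
  have e : 1 + (z - 1) = z := by ring
  rwa [e, map_one] at h2

theorem U1.ne {z : K} (h : U1 v z) : z ≠ 0 := by
  rintro rfl
  have h1 := h.val
  rw [map_zero] at h1
  exact zero_ne_one h1

theorem U1.one : U1 v (1 : K) := by
  rw [U1, sub_self, map_zero]
  exact zero_lt_one

theorem U1.mul {z z' : K} (h : U1 v z) (h' : U1 v z') : U1 v (z * z') := by
  have e : z * z' - 1 = z * (z' - 1) + (z - 1) := by ring
  rw [U1, e]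
  refine Valuation.map_add_lt _ ?_ h
  rw [map_mul, h.val, one_mul]
  exact h'

theorem U1.inv {z : K} (h : U1 v z) : U1 v z⁻¹ := by
  have h0 := h.ne
  have e : z⁻¹ - 1 = -(z - 1) * z⁻¹ := by
    field_simp
    ring
  rw [U1, e, map_mul, Valuation.map_neg, map_inv₀, h.val, inv_one, mul_one]
  exact h

theorem U1.prod {ι : Type} {S : Finset ι} {f : ι → K} (h : ∀ i ∈ S, U1 v (f i)) :
    U1 v (∏ i ∈ S, f i) := by
  classical
  induction S using Finset.induction_on with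
  | empty =>
    rw [Finset.prod_empty]
    exact U1.one
  | insert a s ha ih =>
    rw [Finset.prod_insert ha]
    exact (h a (Finset.mem_insert_self a s)).mul (ih fun i hi => h i (Finset.mem_insert_of_mem hi))

theorem U1.pow {z : K} (h : U1 v z) (n : ℕ) : U1 v (z ^ n) := by
  induction n with
  | zero =>
    rw [pow_zero]
    exact U1.one
  | succ n ih =>
    rw [pow_succ]
    exact ih.mul h

/-- `a / b` is a one-unit -/
theorem U1.of_div {a b : K} (hb : b ≠ 0) (h : v (a - b) < v b) : U1 v (a / b) := by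
  have e : a / b - 1 = (a - b) / b := by
    field_simp
  rw [U1, e, map_div₀]
  have hb' : v b ≠ 0 := (Valuation.ne_zero_iff v).2 hb
  exact (div_lt_one₀ (zero_lt_iff.2 hb')).2 h

theorem exp_of_ne {z : K} (h : z ≠ 0) : ∃ n : ℤ, v z = WithZero.exp n := by
  have h1 : v z ≠ 0 := (Valuation.ne_zero_iff v).2 h
  exact ⟨WithZero.log (v z), (WithZero.exp_log h1).symm⟩

/-- the possible valuations -/
theorem tri {D e1 e2 e3 x y : K} (hD : v D = WithZero.exp (-1 : ℤ)) (h1 : v e1 ≤ 1) (h2 : v e2 ≤ 1)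
    (h3 : v e3 ≤ 1) (h12 : v (e1 - e2) = 1) (h13 : v (e1 - e3) = 1) (h23 : v (e2 - e3) = 1)
    (hy : y ≠ 0) (hE : y ^ 2 = (x - D * e1) * (x - D * e2) * (x - D * e3)) :
    (WithZero.exp (-1 : ℤ) < v x ∧ v (x - D * e1) = v x ∧ v (x - D * e2) = v x ∧
      v (x - D * e3) = v x ∧ ∃ k : ℤ, v x = WithZero.exp (0 + 2 * k)) ∨
    (v x ≤ WithZero.exp (-1 : ℤ) ∧
      ((v (x - D * e1) < WithZero.exp (-1 : ℤ) ∧ v (x - D * e2) = WithZero.exp (-1 : ℤ) ∧
        v (x - D * e3) = WithZero.exp (-1 : ℤ) ∧ ∃ k : ℤ, v (x - D * e1) = WithZero.exp (0 + 2 * k)) ∨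
      (v (x - D * e1) = WithZero.exp (-1 : ℤ) ∧ v (x - D * e2) < WithZero.exp (-1 : ℤ) ∧
        v (x - D * e3) = WithZero.exp (-1 : ℤ) ∧ ∃ k : ℤ, v (x - D * e2) = WithZero.exp (0 + 2 * k)) ∨
      (v (x - D * e1) = WithZero.exp (-1 : ℤ) ∧ v (x - D * e2) = WithZero.exp (-1 : ℤ) ∧
        v (x - D * e3) < WithZero.exp (-1 : ℤ) ∧ ∃ k : ℤ, v (x - D * e3) = WithZero.exp (0 + 2 * k)))) := by
  have hp : (x - D * e1) * (x - D * e2) * (x - D * e3) ≠ 0 := by
    rw [← hE]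
    exact pow_ne_zero 2 hy
  have hn1 : x - D * e1 ≠ 0 := fun h => hp (by rw [h]; ring)
  have hn2 : x - D * e2 ≠ 0 := fun h => hp (by rw [h]; ring)
  have hn3 : x - D * e3 ≠ 0 := fun h => hp (by rw [h]; ring)
  obtain ⟨n1, g1⟩ := exp_of_ne (v := v) hn1
  obtain ⟨n2, g2⟩ := exp_of_ne (v := v) hn2
  obtain ⟨n3, g3⟩ := exp_of_ne (v := v) hn3
  obtain ⟨m, g⟩ := exp_of_ne (v := v) hy
  have hsum : 2 * m = n1 + n2 + n3 := by
    have h := congrArg v hE
    rw [map_pow, map_mul, map_mul, g, g1, g2, g3, ← WithZero.exp_add, ← WithZero.exp_add,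
      ← WithZero.exp_nsmul, WithZero.exp_inj] at h
    rw [nsmul_eq_mul] at h
    push_cast at h
    exact h
  have hDe : ∀ e : K, v e ≤ 1 → v (D * e) ≤ WithZero.exp (-1 : ℤ) := by
    intro e he
    rw [map_mul, hD]
    exact mul_le_of_le_one_right' he
  rcases lt_or_ge (WithZero.exp (-1 : ℤ)) (v x) with hx | hx
  · left
    have hk : ∀ e : K, v e ≤ 1 → v (x - D * e) = v x := fun e he =>
      Valuation.map_sub_eq_of_lt_left v (lt_of_le_of_lt (hDe e he) hx)
    have k1 := hk e1 h1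
    have k2 := hk e2 h2
    have k3 := hk e3 h3
    refine ⟨hx, k1, k2, k3, m - n1, ?_⟩
    rw [← k1, g1]
    rw [g1] at k1
    rw [g2, ← k1, WithZero.exp_inj] at k2
    rw [g3, ← k1, WithZero.exp_inj] at k3
    congr 1
    omega
  · right
    have hle : ∀ e : K, v e ≤ 1 → v (x - D * e) ≤ WithZero.exp (-1 : ℤ) := fun e he =>
      (Valuation.map_sub v _ _).trans (max_le hx (hDe e he))
    have hmax : ∀ e e' : K, v (e - e') = 1 → ¬ (v (x - D * e) < WithZero.exp (-1 : ℤ) ∧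
        v (x - D * e') < WithZero.exp (-1 : ℤ)) := by
      rintro e e' he ⟨hl, hl'⟩
      have h : v ((x - D * e') - (x - D * e)) < WithZero.exp (-1 : ℤ) :=
        lt_of_le_of_lt (Valuation.map_sub v _ _) (max_lt hl' hl)
      have h5 : (x - D * e') - (x - D * e) = D * (e - e') := by ring
      rw [h5, map_mul, hD, he, mul_one] at h
      exact lt_irrefl _ h
    have l1 := hle e1 h1
    have l2 := hle e2 h2
    have l3 := hle e3 h3
    have m12 := hmax e1 e2 h12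
    have m13 := hmax e1 e3 h13
    have m23 := hmax e2 e3 h23
    rw [g1, g2] at m12
    rw [g1, g3] at m13
    rw [g2, g3] at m23
    rw [g1] at l1 ⊢
    rw [g2] at l2 ⊢
    rw [g3] at l3 ⊢
    simp only [WithZero.exp_le_exp, WithZero.exp_lt_exp, WithZero.exp_inj] at l1 l2 l3 m12 m13 m23 ⊢
    refine ⟨hx, ?_⟩
    by_cases c1 : n1 < -1
    · have c2 : n2 = -1 := by omega
      have c3 : n3 = -1 := by omega
      exact Or.inl ⟨c1, c2, c3, m + 1, by omega⟩
    · by_cases c2 : n2 < -1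
      · exact Or.inr (Or.inl ⟨by omega, c2, by omega, m + 1, by omega⟩)
      · have c3 : n3 < -1 := by omega
        exact Or.inr (Or.inr ⟨by omega, by omega, c3, m + 1, by omega⟩)

/-- the case of good reduction -/
theorem evn {D e1 e2 e3 x y : K} (hD : v D = 1) (h1 : v e1 ≤ 1) (h2 : v e2 ≤ 1)
    (h3 : v e3 ≤ 1) (h12 : v (e1 - e2) = 1) (h13 : v (e1 - e3) = 1) (h23 : v (e2 - e3) = 1)
    (hy : y ≠ 0) (hE : y ^ 2 = (x - D * e1) * (x - D * e2) * (x - D * e3)) :
    ∃ k : ℤ, v (x - D * e1) = WithZero.exp (0 + 2 * k) := by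
  have hp : (x - D * e1) * (x - D * e2) * (x - D * e3) ≠ 0 := by
    rw [← hE]
    exact pow_ne_zero 2 hy
  have hn1 : x - D * e1 ≠ 0 := fun h => hp (by rw [h]; ring)
  have hn2 : x - D * e2 ≠ 0 := fun h => hp (by rw [h]; ring)
  have hn3 : x - D * e3 ≠ 0 := fun h => hp (by rw [h]; ring)
  obtain ⟨n1, g1⟩ := exp_of_ne (v := v) hn1
  obtain ⟨n2, g2⟩ := exp_of_ne (v := v) hn2
  obtain ⟨n3, g3⟩ := exp_of_ne (v := v) hn3
  obtain ⟨m, g⟩ := exp_of_ne (v := v) hy
  have hsum : 2 * m = n1 + n2 + n3 := by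
    have h := congrArg v hE
    rw [map_pow, map_mul, map_mul, g, g1, g2, g3, ← WithZero.exp_add, ← WithZero.exp_add,
      ← WithZero.exp_nsmul, WithZero.exp_inj] at h
    rw [nsmul_eq_mul] at h
    push_cast at h
    exact h
  have hDe : ∀ e : K, v e ≤ 1 → v (D * e) ≤ 1 := by
    intro e he
    rw [map_mul, hD, one_mul]
    exact he
  rcases lt_or_ge 1 (v x) with hx | hx
  · have hk : ∀ e : K, v e ≤ 1 → v (x - D * e) = v x := fun e he =>
      Valuation.map_sub_eq_of_lt_left v (lt_of_le_of_lt (hDe e he) hx)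
    have k1 := hk e1 h1
    have k2 := hk e2 h2
    have k3 := hk e3 h3
    refine ⟨m - n1, ?_⟩
    rw [g1]
    rw [g1] at k1
    rw [g2, ← k1, WithZero.exp_inj] at k2
    rw [g3, ← k1, WithZero.exp_inj] at k3
    congr 1
    omega
  · have hle : ∀ e : K, v e ≤ 1 → v (x - D * e) ≤ 1 := fun e he =>
      (Valuation.map_sub v _ _).trans (max_le hx (hDe e he))
    have hmax : ∀ e e' : K, v (e - e') = 1 → ¬ (v (x - D * e) < 1 ∧
        v (x - D * e') < 1) := by
      rintro e e' he ⟨hl, hl'⟩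
      have h : v ((x - D * e') - (x - D * e)) < 1 :=
        lt_of_le_of_lt (Valuation.map_sub v _ _) (max_lt hl' hl)
      have h5 : (x - D * e') - (x - D * e) = D * (e - e') := by ring
      rw [h5, map_mul, hD, he, mul_one] at h
      exact lt_irrefl _ h
    have l1 := hle e1 h1
    have l2 := hle e2 h2
    have l3 := hle e3 h3
    have m12 := hmax e1 e2 h12
    have m13 := hmax e1 e3 h13
    have m23 := hmax e2 e3 h23
    rw [g1, g2] at m12
    rw [g1, g3] at m13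
    rw [g2, g3] at m23
    rw [g1] at l1 ⊢
    rw [g2] at l2
    rw [g3] at l3
    simp only [← WithZero.exp_zero, WithZero.exp_le_exp, WithZero.exp_lt_exp, WithZero.exp_inj] at l1 l2 l3 m12 m13 m23 ⊢
    by_cases c1 : n1 < 0
    · exact ⟨m, by omega⟩
    · exact ⟨0, by omega⟩

/-- the squares, first case -/
theorem sq1 {D e1 e2 e3 x y : K} (hD : v D = WithZero.exp (-1 : ℤ)) (h2 : v e2 ≤ 1)
    (h3 : v e3 ≤ 1) (hy : y ≠ 0) (hE : y ^ 2 = (x - D * e1) * (x - D * e2) * (x - D * e3))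
    (hx : WithZero.exp (-1 : ℤ) < v x) : U1 v ((x - D * e1) / (y / x) ^ 2) := by
  have hp : (x - D * e1) * (x - D * e2) * (x - D * e3) ≠ 0 := by
    rw [← hE]
    exact pow_ne_zero 2 hy
  have hn1 : x - D * e1 ≠ 0 := fun h => hp (by rw [h]; ring)
  have hn2 : x - D * e2 ≠ 0 := fun h => hp (by rw [h]; ring)
  have hn3 : x - D * e3 ≠ 0 := fun h => hp (by rw [h]; ring)
  have hx0 : x ≠ 0 := by
    rintro rfl
    rw [map_zero] at hx
    exact not_lt_zero' hx
  have hDe : ∀ e : K, v e ≤ 1 → v (D * e) ≤ WithZero.exp (-1 : ℤ) := by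
    intro e he
    rw [map_mul, hD]
    exact mul_le_of_le_one_right' he
  have hu : ∀ e : K, v e ≤ 1 → x - D * e ≠ 0 → U1 v (x / (x - D * e)) := by
    intro e he h0
    apply U1.of_div h0
    have e5 : x - (x - D * e) = D * e := by ring
    rw [e5, Valuation.map_sub_eq_of_lt_left v (lt_of_le_of_lt (hDe e he) hx)]
    exact lt_of_le_of_lt (hDe e he) hx
  have e6 : (x - D * e1) / (y / x) ^ 2 = (x / (x - D * e2)) * (x / (x - D * e3)) := by
    rw [div_pow, hE]
    field_simp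
  rw [e6]
  exact (hu e2 h2 hn2).mul (hu e3 h3 hn3)

/-- the squares, second case, the special zero -/
theorem sq2 {D e1 e2 e3 x y : K} (hD : v D = WithZero.exp (-1 : ℤ))
    (hy : y ≠ 0) (hE : y ^ 2 = (x - D * e1) * (x - D * e2) * (x - D * e3))
    (a1 : v (x - D * e1) < WithZero.exp (-1 : ℤ)) (a2 : v (x - D * e2) = WithZero.exp (-1 : ℤ))
    (a3 : v (x - D * e3) = WithZero.exp (-1 : ℤ)) :
    U1 v ((x - D * e1) * ((e1 - e2) * (e1 - e3)) / (y / D) ^ 2) := by
  have hp : (x - D * e1) * (x - D * e2) * (x - D * e3) ≠ 0 := by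
    rw [← hE]
    exact pow_ne_zero 2 hy
  have hn1 : x - D * e1 ≠ 0 := fun h => hp (by rw [h]; ring)
  have hn2 : x - D * e2 ≠ 0 := fun h => hp (by rw [h]; ring)
  have hn3 : x - D * e3 ≠ 0 := fun h => hp (by rw [h]; ring)
  have hD0 : D ≠ 0 := by
    rintro rfl
    rw [map_zero] at hD
    exact WithZero.exp_ne_zero hD.symm
  have hu : ∀ e : K, x - D * e ≠ 0 → v (x - D * e) = WithZero.exp (-1 : ℤ) →
      U1 v (D * (e1 - e) / (x - D * e)) := by
    intro e h0 he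
    apply U1.of_div h0
    have e5 : D * (e1 - e) - (x - D * e) = -(x - D * e1) := by ring
    rw [e5, Valuation.map_neg, he]
    exact a1
  have e6 : (x - D * e1) * ((e1 - e2) * (e1 - e3)) / (y / D) ^ 2 =
      (D * (e1 - e2) / (x - D * e2)) * (D * (e1 - e3) / (x - D * e3)) := by
    rw [div_pow, hE]
    field_simp
  rw [e6]
  exact (hu e2 hn2 a2).mul (hu e3 hn3 a3)

/-- the squares, second case, the other zeros -/
theorem sq3 {D e1 e2 x : K} (hD : v D = WithZero.exp (-1 : ℤ)) (h12 : v (e1 - e2) = 1)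
    (a2 : v (x - D * e2) < WithZero.exp (-1 : ℤ)) :
    U1 v ((x - D * e1) * D * (-(e1 - e2)) / (D * (e2 - e1)) ^ 2) := by
  have hD0 : D ≠ 0 := by
    rintro rfl
    rw [map_zero] at hD
    exact WithZero.exp_ne_zero hD.symm
  have h0 : e2 - e1 ≠ 0 := by
    intro h
    have h5 : e1 - e2 = 0 := by rw [← neg_sub, h, neg_zero]
    rw [h5, map_zero] at h12
    exact zero_ne_one h12
  have e6 : (x - D * e1) * D * (-(e1 - e2)) / (D * (e2 - e1)) ^ 2 = (x - D * e1) / (D * (e2 - e1)) := by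
    rw [neg_sub]
    field_simp
  rw [e6]
  apply U1.of_div (mul_ne_zero hD0 h0)
  have e5 : (x - D * e1) - D * (e2 - e1) = x - D * e2 := by ring
  have h21 : v (e2 - e1) = 1 := by rw [← h12, Valuation.map_sub_swap]
  rw [e5, map_mul, hD, h21, mul_one]
  exact a2

/-- the differences of the zeros are units -/
theorem dif {A B e1 e2 e3 : K} (r1 : e1 ^ 3 + A * e1 + B = 0) (r2 : e2 ^ 3 + A * e2 + B = 0)
    (r3 : e3 ^ 3 + A * e3 + B = 0) (h12 : e1 ≠ e2) (h13 : e1 ≠ e3) (h23 : e2 ≠ e3) :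
    e3 = -e1 - e2 ∧ A = -(e1 ^ 2 + e1 * e2 + e2 ^ 2) ∧ B = e1 * e2 * (e1 + e2) := by
  have a12 : e1 ^ 2 + e1 * e2 + e2 ^ 2 + A = 0 := by
    apply mul_left_cancel₀ (sub_ne_zero.2 h12)
    linear_combination r1 - r2
  have a13 : e1 ^ 2 + e1 * e3 + e3 ^ 2 + A = 0 := by
    apply mul_left_cancel₀ (sub_ne_zero.2 h13)
    linear_combination r1 - r3
  have a : e1 + e2 + e3 = 0 := by
    apply mul_left_cancel₀ (sub_ne_zero.2 h23)
    linear_combination a12 - a13
  refine ⟨by linear_combination a, by linear_combination a12, ?_⟩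
  linear_combination r1 - e1 * a12

theorem one_of_mul {α : Type} [LinearOrderedCommGroupWithZero α] {a b : α} (ha : a ≤ 1) (hb : b ≤ 1)
    (h : a * b = 1) : a = 1 ∧ b = 1 := by
  have h1 : 1 ≤ a := by
    calc 1 = a * b := h.symm
      _ ≤ a * 1 := mul_le_mul' le_rfl hb
      _ = a := mul_one a
  have h2 : a = 1 := le_antisymm ha h1
  exact ⟨h2, by rwa [h2, one_mul] at h⟩

theorem dif_val {A B e1 e2 e3 : K} (r1 : e1 ^ 3 + A * e1 + B = 0) (r2 : e2 ^ 3 + A * e2 + B = 0)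
    (r3 : e3 ^ 3 + A * e3 + B = 0) (h12 : e1 ≠ e2) (h13 : e1 ≠ e3) (h23 : e2 ≠ e3)
    (hΔ : v (4 * A ^ 3 + 27 * B ^ 2) = 1) (h1 : v e1 ≤ 1) (h2 : v e2 ≤ 1) (h3 : v e3 ≤ 1) :
    v (e1 - e2) = 1 ∧ v (e1 - e3) = 1 ∧ v (e2 - e3) = 1 := by
  obtain ⟨q3, qA, qB⟩ := dif r1 r2 r3 h12 h13 h23
  have e : 4 * A ^ 3 + 27 * B ^ 2 = -(((e1 - e2) * ((e1 - e3) * (e2 - e3))) ^ 2) := by
    rw [qA, qB, q3]
    ring
  rw [e, Valuation.map_neg, map_pow] at hΔ
  have h4 := (pow_eq_one_iff.1 hΔ).resolve_right two_ne_zero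
  rw [map_mul] at h4
  have l12 : v (e1 - e2) ≤ 1 := (Valuation.map_sub v _ _).trans (max_le h1 h2)
  have l13 : v (e1 - e3) ≤ 1 := (Valuation.map_sub v _ _).trans (max_le h1 h3)
  have l23 : v (e2 - e3) ≤ 1 := (Valuation.map_sub v _ _).trans (max_le h2 h3)
  have l4 : v ((e1 - e3) * (e2 - e3)) ≤ 1 := by
    rw [map_mul]
    exact mul_le_one' l13 l23
  obtain ⟨g1, g2⟩ := one_of_mul l12 l4 h4
  rw [map_mul] at g2
  exact ⟨g1, one_of_mul l13 l23 g2⟩

theorem fac {A B e1 e2 e3 : K} (r1 : e1 ^ 3 + A * e1 + B = 0) (r2 : e2 ^ 3 + A * e2 + B = 0)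
    (r3 : e3 ^ 3 + A * e3 + B = 0) (h12 : e1 ≠ e2) (h13 : e1 ≠ e3) (h23 : e2 ≠ e3) (x D : K) :
    x ^ 3 + A * D ^ 2 * x + B * D ^ 3 = (x - D * e1) * (x - D * e2) * (x - D * e3) := by
  obtain ⟨q3, qA, qB⟩ := dif r1 r2 r3 h12 h13 h23
  rw [qA, qB, q3]
  ring

end val

end Pool.Agent.Q193.ESG
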