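import Pool.Agent.Q193.ESG.LcfA
import Pool.Agent.Q193.ESG.XTF
import Pool.Agent.Q124.ESM.SqF
import Pool.Agent.Q285.ESG.Base
import Pool.Agent.Q224.ESM.FRX
import Pool.Agent.Q241.ESM.Teq

/-!
# Project ESG (helper161), job LCF, part 2: blocks and Frobenius elements
-/

set_option autoImplicit false
set_option linter.all false

namespace Pool.Agent.Q193.ESG

open Polynomial NumberField IsDedekindDomain Finset
open Pool.Agent.Q51.EL (Abv Par)
open Pool.Agent.Q161.ESM
open Pool.Agent.Q161.ESG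
open scoped Classical

section blk

variable {F L K : Type} [Field F] [NumberField F] [Field L] [NumberField L] [Algebra F L]
  [Field K] [NumberField K] [IsGalois ℚ K]

theorem blk_card (hj : Nonempty (L →+* K)) (τ : F →+* K) :
    (univ.filter (fun ι : L →+* K => ι.comp (algebraMap F L) = τ)).card = Module.finrank F L := by
  obtain ⟨j⟩ := hj
  letI : Algebra F K := τ.toAlgebra
  have hs : ∀ x : L, ((minpoly F x).map (algebraMap F K)).Splits := by
    intro x
    have h1 : ((minpoly ℚ (j x)).map (algebraMap ℚ K)).Splits := Normal.splits inferInstance (j x)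
    have h2 : minpoly ℚ (j x) = minpoly ℚ x :=
      minpoly.algHom_eq j.toRatAlgHom j.injective x
    rw [h2] at h1
    have h3 : minpoly F x ∣ (minpoly ℚ x).map (algebraMap ℚ F) := minpoly.dvd_map_of_isScalarTower ℚ F x
    have h4 : (minpoly F x).map (algebraMap F K) ∣ (minpoly ℚ x).map (algebraMap ℚ K) := by
      have h5 := Polynomial.map_dvd (algebraMap F K) h3
      rw [Polynomial.map_map] at h5
      have h6 : (algebraMap F K).comp (algebraMap ℚ F) = algebraMap ℚ K := Subsingleton.elim _ _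
      rwa [h6] at h5
    exact h1.of_dvd (Polynomial.map_ne_zero (minpoly.ne_zero (Algebra.IsIntegral.isIntegral x))) h4
  have h := AlgHom.card_of_splits F L K hs
  rw [← h, ← Fintype.card_coe]
  refine Fintype.card_congr ⟨fun ι => ⟨ι.1, fun r => ?_⟩, fun f => ⟨(f : L →+* K), ?_⟩, fun ι => ?_, fun f => ?_⟩
  · have h1 := (mem_filter.1 ι.2).2
    exact congrArg (fun g : F →+* K => g r) h1
  · refine mem_filter.2 ⟨mem_univ _, RingHom.ext fun r => ?_⟩
    exact f.commutes r
  · exact Subtype.ext rfl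
  · exact AlgHom.ext fun x => rfl

theorem blk_sep {a b : F} {th : L} (hirr : Irreducible (X ^ 3 + C a * X + C b : F[X]))
    (hroot : th ^ 3 + algebraMap F L a * th + algebraMap F L b = 0) (hdeg : Module.finrank F L = 3)
    {ι ι' : L →+* K} (h1 : ι'.comp (algebraMap F L) = ι.comp (algebraMap F L)) (h2 : ι' th = ι th) :
    ι' = ι := by
  letI : Algebra F K := (ι.comp (algebraMap F L)).toAlgebra
  let f : L →ₐ[F] K := ⟨ι, fun r => rfl⟩
  let f' : L →ₐ[F] K := ⟨ι', fun r => congrArg (fun g : F →+* K => g r) h1⟩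
  have hint : IsIntegral F th := Algebra.IsIntegral.isIntegral th
  have hmin : minpoly F th = X ^ 3 + C a * X + C b := by
    symm
    apply minpoly.eq_of_irreducible_of_monic hirr
    · rw [map_add, map_add, map_mul, map_pow, aeval_X, aeval_C, aeval_C]
      exact hroot
    · monicity!
  have hnat : (minpoly F th).natDegree = 3 := by
    rw [hmin]
    compute_degree!
  have htop : IntermediateField.adjoin F {th} = ⊤ := by
    apply IntermediateField.eq_of_le_of_finrank_eq le_top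
    rw [IntermediateField.adjoin.finrank hint, hnat, IntermediateField.finrank_top', hdeg]
  have halg : Algebra.adjoin F {th} = ⊤ := by
    rw [← IntermediateField.adjoin_simple_toSubalgebra_of_isAlgebraic hint.isAlgebraic, htop]
    exact IntermediateField.top_toSubalgebra
  have hff : f' = f := by
    apply AlgHom.ext_of_adjoin_eq_top halg
    intro x hx
    rw [Set.mem_singleton_iff] at hx
    subst hx
    exact h2
  ext x
  exact congrArg (fun g : L →ₐ[F] K => g x) hff

/-- the block of an embedding -/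
theorem blk_three {a b : F} {th : L} (hirr : Irreducible (X ^ 3 + C a * X + C b : F[X]))
    (hroot : th ^ 3 + algebraMap F L a * th + algebraMap F L b = 0) (hdeg : Module.finrank F L = 3)
    (ι : L →+* K) : ∃ ι2 ι3 : L →+* K, (∀ ι' : L →+* K, ι'.comp (algebraMap F L) = ι.comp (algebraMap F L) ↔
      ι' = ι ∨ ι' = ι2 ∨ ι' = ι3) ∧ ι ≠ ι2 ∧ ι ≠ ι3 ∧ ι2 ≠ ι3 ∧ ι th ≠ ι2 th ∧ ι th ≠ ι3 th ∧ ι2 th ≠ ι3 th := by
  have hc := blk_card ⟨ι⟩ (ι.comp (algebraMap F L))
  rw [hdeg] at hc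
  have hmem : ι ∈ univ.filter (fun ι' : L →+* K => ι'.comp (algebraMap F L) = ι.comp (algebraMap F L)) :=
    mem_filter.2 ⟨mem_univ _, rfl⟩
  have hc2 := card_erase_of_mem hmem
  rw [hc] at hc2
  obtain ⟨ι2, ι3, h23, hS⟩ := card_eq_two.1 hc2
  have hS' : ∀ ι' : L →+* K, (ι' ≠ ι ∧ ι'.comp (algebraMap F L) = ι.comp (algebraMap F L)) ↔
      ι' = ι2 ∨ ι' = ι3 := by
    intro ι'
    have h1 : ι' ∈ (univ.filter (fun ι' : L →+* K =>
      ι'.comp (algebraMap F L) = ι.comp (algebraMap F L))).erase ι ↔ ι' ∈ ({ι2, ι3} : Finset (L →+* K)) := by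
      rw [hS]
    rw [mem_erase, mem_filter, mem_insert, mem_singleton] at h1
    constructor
    · rintro ⟨g1, g2⟩
      exact h1.1 ⟨g1, mem_univ _, g2⟩
    · intro g
      exact ⟨(h1.2 g).1, (h1.2 g).2.2⟩
  have i2 := (hS' ι2).2 (Or.inl rfl)
  have i3 := (hS' ι3).2 (Or.inr rfl)
  refine ⟨ι2, ι3, fun ι' => ?_, i2.1.symm, i3.1.symm, h23, ?_, ?_, ?_⟩
  · constructor
    · intro h
      by_cases h0 : ι' = ι
      · exact Or.inl h0
      · exact Or.inr ((hS' ι').1 ⟨h0, h⟩)
    · rintro (rfl | h)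
      · rfl
      · exact ((hS' ι').2 h).2
  · intro h
    exact i2.1 (blk_sep hirr hroot hdeg i2.2 h.symm)
  · intro h
    exact i3.1 (blk_sep hirr hroot hdeg i3.2 h.symm)
  · intro h
    exact h23 (blk_sep hirr hroot hdeg (i2.2.trans i3.2.symm) h)

end blk

section frob

variable {K : Type} [Field K] [NumberField K]

theorem mvp {w : HeightOneSpectrum (𝓞 K)} {l : ℕ} (hl : l ≠ 0) {F : K ≃ₐ[ℚ] K} (h : Fb w l F) (x : K) :
    w.valuation K (F x) = w.valuation K x :=
  Pool.Agent.Q241.ESM.val_mv (Pool.Agent.Q124.ESM.mv_of_fb hl h) x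

/-- units fixed by the Frobenius element -/
theorem fix_pow {w : HeightOneSpectrum (𝓞 K)} {l : ℕ} (hl : l.Prime) {F : K ≃ₐ[ℚ] K} (hF : Fb w l F)
    {y : K} (h1 : F y = y) (h2 : w.valuation K y = 1) : U1 (w.valuation K) (y ^ (l - 1)) := by
  obtain ⟨a, ⟨b, hb⟩, hab⟩ := w.exists_primeCompl_mul_eq_of_integer (K := K) y h2.le
  change y * (b : K) = (a : K) at hab
  have hb' : b ∉ w.asIdeal := hb
  have hprime : w.asIdeal.IsPrime := w.isPrime
  have vb : w.valuation K (b : K) = 1 := Pool.Agent.Q124.ESM.val_one hb'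
  have ha' : a ∉ w.asIdeal := by
    intro ha
    have h4 := (Pool.Agent.Q124.ESM.mem_of_val_lt a).2 ha
    rw [← hab, map_mul, h2, vb, one_mul] at h4
    exact lt_irrefl _ h4
  let φ : 𝓞 K →+* 𝓞 K := RingOfIntegers.mapRingHom (F : K →+* K)
  have hφ : ∀ u : 𝓞 K, (φ u : K) = F (u : K) := fun u => rfl
  have h5 : φ a * b = a * φ b := by
    apply RingOfIntegers.coe_injective
    rw [map_mul, map_mul]
    change (φ a : K) * (b : K) = (a : K) * (φ b : K)
    rw [hφ, hφ, ← hab, map_mul, h1]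
    ring
  let q : 𝓞 K →+* (𝓞 K ⧸ w.asIdeal) := Ideal.Quotient.mk w.asIdeal
  have hq : ∀ u : 𝓞 K, q u = 0 ↔ u ∈ w.asIdeal := fun u => Ideal.Quotient.eq_zero_iff_mem
  have hfr : ∀ u : 𝓞 K, q (φ u) = q u ^ l := by
    intro u
    have h6 := hF u (φ u) (hφ u)
    rwa [← hq, map_sub, map_pow, sub_eq_zero] at h6
  have hqa : q a ≠ 0 := fun h6 => ha' ((hq a).1 h6)
  have hqb : q b ≠ 0 := fun h6 => hb' ((hq b).1 h6)
  have hl1 : l = (l - 1) + 1 := (Nat.succ_pred_eq_of_pos hl.pos).symm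
  have h6 : q a ^ (l - 1) = q b ^ (l - 1) := by
    have h7 := congrArg q h5
    rw [map_mul, map_mul, hfr, hfr] at h7
    have h8 : q a ^ l = q a ^ (l - 1) * q a := by
      conv_lhs => rw [hl1]
      exact pow_succ _ _
    have h9 : q b ^ l = q b ^ (l - 1) * q b := by
      conv_lhs => rw [hl1]
      exact pow_succ _ _
    rw [h8, h9] at h7
    apply mul_right_cancel₀ (mul_ne_zero hqa hqb)
    calc q a ^ (l - 1) * (q a * q b) = q a ^ (l - 1) * q a * q b := by ring
      _ = q a * (q b ^ (l - 1) * q b) := h7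
      _ = q b ^ (l - 1) * (q a * q b) := by ring
  have h7 : a ^ (l - 1) - b ^ (l - 1) ∈ w.asIdeal := by
    rw [← hq, map_sub, map_pow, map_pow, h6, sub_self]
  have h8 := (Pool.Agent.Q124.ESM.mem_of_val_lt _).2 h7
  have h9 : ((a ^ (l - 1) - b ^ (l - 1) : 𝓞 K) : K) = (y ^ (l - 1) - 1) * (b : K) ^ (l - 1) := by
    change algebraMap (𝓞 K) K (a ^ (l - 1) - b ^ (l - 1)) = _
    rw [map_sub, map_pow, map_pow]
    change (a : K) ^ (l - 1) - (b : K) ^ (l - 1) = _
    rw [← hab]
    ring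
  rw [h9, map_mul, map_pow, vb, one_pow, mul_one] at h8
  exact h8

/-- the criterion for `QR` -/
theorem qr_of {w : HeightOneSpectrum (𝓞 K)} {l : ℕ} (hl : l.Prime) (hl2 : l ≠ 2)
    (hvl : w.valuation K (l : K) = WithZero.exp (-1 : ℤ)) {F : K ≃ₐ[ℚ] K} (hF : Fb w l F)
    {Y r : K} (hr : r ≠ 0) (hFr : F r = r) (h : U1 (w.valuation K) (Y / r ^ 2)) : QR w l Y := by
  obtain ⟨n, hn⟩ := exp_of_ne (v := w.valuation K) hr
  refine ⟨n, ?_⟩
  have hl0 : (l : K) ≠ 0 := by exact_mod_cast hl.ne_zero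
  have hodd : 2 * ((l - 1) / 2) = l - 1 := by
    rcases hl.eq_two_or_odd' with h8 | ⟨n, hn⟩
    · exact absurd h8 hl2
    · omega
  have e : Y * (l : K) ^ (2 * n) = (r * (l : K) ^ n) ^ 2 * (Y / r ^ 2) := by
    rw [mul_pow, ← zpow_natCast ((l : K) ^ n) 2, ← zpow_mul, mul_comm n]
    push_cast
    field_simp
  have hu : w.valuation K (r * (l : K) ^ n) = 1 := by
    rw [map_mul, map_zpow₀, hvl, hn, ← WithZero.exp_zsmul, ← WithZero.exp_add, ← WithZero.exp_zero]
    congr 1
    rw [smul_eq_mul]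
    ring
  have hf : F (r * (l : K) ^ n) = r * (l : K) ^ n := by
    rw [map_mul, map_zpow₀, hFr, map_natCast]
  have h1 := fix_pow hl hF hf hu
  have h2 := h1.mul (h.pow ((l - 1) / 2))
  have e2 : (Y * (l : K) ^ (2 * n)) ^ ((l - 1) / 2) =
      (r * (l : K) ^ n) ^ (l - 1) * (Y / r ^ 2) ^ ((l - 1) / 2) := by
    rw [e, mul_pow, ← pow_mul, hodd]
  rw [e2]
  exact h2

end frob

end Pool.Agent.Q193.ESG
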